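import Pool.Agent.Helper18.MixedDim4

/-!
# Mixed metric dimension of 2-connected graphs

The definitions `distEdge`, `distElem`, `IsMixedResolving`, `mdim`, `cyclomatic`, `TwoConnected`
are in `Pool/Agent/Helper18/MixedDim.lean`.
-/

set_option autoImplicit false

open SimpleGraph Pool.Agent.Helper18.MixedDim

namespace Pool.Agent.Results.MP_ca4ce9_co.MixedDimBound

/-- For orientation (not used): in a finite connected graph the set of all vertices is mixed
resolving, so that `mdim` is a minimum over a nonempty set. -/
theorem univ_isMixedResolving {V : Type*} [Fintype V] (G : SimpleGraph V) (hc : G.Connected) :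
    IsMixedResolving G Finset.univ := by
  have hz : ∀ {a b : V}, G.dist a b = 0 ↔ a = b := hc.dist_eq_zero_iff
  have hv : ∀ s w : V, distElem G s (Sum.inl w) = G.dist s w := fun _ _ => rfl
  have hd : ∀ (s : V) (e : G.edgeSet) (w u : V), e.1 = s(w, u) →
      distElem G s (Sum.inr e) = min (G.dist s w) (G.dist s u) := by
    intro s e w u he
    simp only [distElem, distEdge, he, Sym2.lift_mk]
  have hVE : ∀ (t : V) (e : G.edgeSet), ∃ s, distElem G s (Sum.inl t) ≠
      distElem G s (Sum.inr e) := by
    rintro t ⟨e, he⟩
    induction e with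
    | _ w u =>
      have hwu : w ≠ u := G.ne_of_adj he
      by_cases htw : t = w
      · refine ⟨u, ?_⟩
        rw [hv, hd u _ w u rfl, SimpleGraph.dist_self]
        have : G.dist u t ≠ 0 := fun h => hwu (by rw [← htw]; exact (hz.mp h).symm)
        omega
      · refine ⟨w, ?_⟩
        rw [hv, hd w _ w u rfl, SimpleGraph.dist_self]
        have : G.dist w t ≠ 0 := fun h => htw (hz.mp h).symm
        omega
  rintro (t | e) (t' | e') hne
  · refine ⟨t, Finset.mem_univ t, ?_⟩
    rw [hv, hv, SimpleGraph.dist_self]
    exact fun h => hne (by rw [hz.mp h.symm])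
  · obtain ⟨s, hs⟩ := hVE t e'
    exact ⟨s, Finset.mem_univ s, hs⟩
  · obtain ⟨s, hs⟩ := hVE t' e
    exact ⟨s, Finset.mem_univ s, hs.symm⟩
  · obtain ⟨e, he⟩ := e
    obtain ⟨e', he'⟩ := e'
    induction e with
    | _ w u =>
      induction e' with
      | _ w' u' =>
        have hwu : w ≠ u := G.ne_of_adj he
        by_contra hcon
        push Not at hcon
        have h1 := hcon w (Finset.mem_univ w)
        have h2 := hcon u (Finset.mem_univ u)
        rw [hd w _ w u rfl, hd w _ w' u' rfl, SimpleGraph.dist_self] at h1
        rw [hd u _ w u rfl, hd u _ w' u' rfl, SimpleGraph.dist_self] at h2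
        have e1 : w = w' ∨ w = u' := by
          rcases Nat.eq_zero_or_pos (G.dist w w') with h | h
          · exact Or.inl (hz.mp h)
          · exact Or.inr (hz.mp (by omega))
        have e2 : u = w' ∨ u = u' := by
          rcases Nat.eq_zero_or_pos (G.dist u w') with h | h
          · exact Or.inl (hz.mp h)
          · exact Or.inr (hz.mp (by omega))
        apply hne
        congr 1
        apply Subtype.ext
        rcases e1 with rfl | rfl <;> rcases e2 with rfl | rfl
        · exact absurd rfl hwu
        · rfl
        · exact Sym2.eq_swap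
        · exact absurd rfl hwu

/-- **Positive answer to Q1.**  Every finite 2-connected graph `G` which is not a cycle satisfies
`mdim G ≤ 2 c(G)`. -/
theorem result {V : Type*} [Fintype V] (G : SimpleGraph V) (h2 : TwoConnected G)
    (hcyc : ¬ Nonempty (G ≃g cycleGraph (Fintype.card V))) :
    (mdim G : ℤ) ≤ 2 * cyclomatic G := by
  obtain ⟨S, hS, hcard⟩ := main h2 hcyc
  have hle : mdim G ≤ S.card := Nat.sInf_le ⟨S, rfl, hS⟩
  exact le_trans (by exact_mod_cast hle) hcard

end Pool.Agent.Results.MP_ca4ce9_co.MixedDimBound
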